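import Pool.Agent.Lib.MP_da15bd_co.Basic
import Pool.Agent.Lib.MP_da15bd_co.Lower
import Pool.Agent.Lib.MP_da15bd_co.Exact

/-!
MP_da15bd_co: exact value of `N(n,d)` for infinitely many `n` in every degree `d`.
-/

set_option autoImplicit false

open Finset

namespace Pool.Agent.Results.MP_da15bd_co.ExactInfinitelyOften

open Pool.Agent.Lib.MP_da15bd_co

/-- If `2 * k < 2 ^ s` and `n ≡ 2 * k` modulo `2 ^ s` with `2 * k < n`, then
`N n (2 * k)` and `N (n + 1) (2 * k + 1)` are known exactly. -/
theorem result :
    ∀ n k s : ℕ, 2 * k < 2 ^ s → 2 * k < n → n ≡ 2 * k [MOD 2 ^ s] →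
      N n (2 * k) =
        (∑ i ∈ range (k + 1), n.choose i) + (∑ i ∈ range k, n.choose i) + 1 ∧
      N (n + 1) (2 * k + 1) = 2 * (∑ i ∈ range (k + 1), (n + 1).choose i) + 1 := by
  intro n k s hs hn hmod
  have h0 := exact_even n k s hs hn hmod
  constructor
  · apply le_antisymm
    · apply N_le_of_forces
      apply forces_of_lt
      have h1 : 2 * k / 2 = k := by omega
      have h2 : (2 * k + 1) / 2 = k := by omega
      rw [h1, h2]
      exact Nat.lt_succ_self _
    · exact lt_N_of_not_forces h0
  · apply le_antisymm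
    · apply N_le_of_forces
      apply forces_of_lt
      have h1 : (2 * k + 1) / 2 = k := by omega
      have h2 : (2 * k + 1 + 1) / 2 = k + 1 := by omega
      rw [h1, h2, two_mul]
      exact Nat.lt_succ_self _
    · have h1 := lt_N_of_not_forces (not_forces_double h0)
      rw [← pascal_sum n k] at h1
      exact h1

end Pool.Agent.Results.MP_da15bd_co.ExactInfinitelyOften
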