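import Pool.Agent.Lib.MP_da15bd_co.Basic
import Pool.Agent.Lib.MP_da15bd_co.Lower

/-!
MP_da15bd_co: the order of growth of `N(n,d)` for all `0 ≤ d ≤ n - 1`.
-/

set_option autoImplicit false

open Finset

namespace Pool.Agent.Results.MP_da15bd_co.OrderOfGrowth

open Pool.Agent.Lib.MP_da15bd_co

/-- Two-sided bounds for `N n d` for every degree `d < n`: split by the parity of `d`, then in
the uniform form with ratio two, and finally the closed form `n.choose (d / 2)` (up to the
absolute constant `3`) for `2 * d ≤ n`. -/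
theorem result :
    (∀ n k : ℕ, 2 * k < n →
      (∑ i ∈ range (k + 1), n.choose i) + 1 ≤ N n (2 * k) ∧
      N n (2 * k) ≤ (∑ i ∈ range (k + 1), n.choose i) + (∑ i ∈ range k, n.choose i) + 1) ∧
    (∀ n k : ℕ, 2 * k + 1 < n →
      2 * (∑ i ∈ range (k + 1), (n - 1).choose i) + 1 ≤ N n (2 * k + 1) ∧
      N n (2 * k + 1) ≤ 2 * (∑ i ∈ range (k + 1), n.choose i) + 1) ∧
    (∀ n d : ℕ, d < n →
      (∑ i ∈ range (d / 2 + 1), n.choose i) + 1 ≤ N n d ∧
      N n d ≤ 2 * (∑ i ∈ range (d / 2 + 1), n.choose i) + 1) ∧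
    (∀ n d : ℕ, 1 ≤ n → 2 * d ≤ n →
      n.choose (d / 2) + 1 ≤ N n d ∧ N n d ≤ 3 * n.choose (d / 2) + 1) := by
  have even_upper : ∀ n k : ℕ,
      N n (2 * k) ≤ (∑ i ∈ range (k + 1), n.choose i) + (∑ i ∈ range k, n.choose i) + 1 := by
    intro n k
    apply N_le_of_forces
    apply forces_of_lt
    have h1 : 2 * k / 2 = k := by omega
    have h2 : (2 * k + 1) / 2 = k := by omega
    rw [h1, h2]
    exact Nat.lt_succ_self _
  have odd_upper : ∀ n k : ℕ, N n (2 * k + 1) ≤ 2 * (∑ i ∈ range (k + 1), n.choose i) + 1 := by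
    intro n k
    apply N_le_of_forces
    apply forces_of_lt
    have h1 : (2 * k + 1) / 2 = k := by omega
    have h2 : (2 * k + 1 + 1) / 2 = k + 1 := by omega
    rw [h1, h2, two_mul]
    exact Nat.lt_succ_self _
  have odd_lower : ∀ n k : ℕ, 1 ≤ n →
      2 * (∑ i ∈ range (k + 1), (n - 1).choose i) + 1 ≤ N n (2 * k + 1) := by
    intro n k hn
    obtain ⟨m, rfl⟩ : ∃ m, n = m + 1 := ⟨n - 1, by omega⟩
    exact lower_odd m k
  have uniform : ∀ n d : ℕ, 1 ≤ n →
      (∑ i ∈ range (d / 2 + 1), n.choose i) + 1 ≤ N n d ∧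
      N n d ≤ 2 * (∑ i ∈ range (d / 2 + 1), n.choose i) + 1 := by
    intro n d hn
    rcases Nat.even_or_odd' d with ⟨k, rfl | rfl⟩
    · have h1 : 2 * k / 2 = k := by omega
      rw [h1]
      have h3 := even_upper n k
      have h4 := lower_even n k
      have h6 : (∑ i ∈ range k, n.choose i) ≤ ∑ i ∈ range (k + 1), n.choose i := by
        rw [sum_range_succ]
        exact Nat.le_add_right _ _
      constructor <;> omega
    · have h1 : (2 * k + 1) / 2 = k := by omega
      rw [h1]
      have h3 := odd_upper n k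
      have h4 := odd_lower n k hn
      obtain ⟨m, rfl⟩ : ∃ m, n = m + 1 := ⟨n - 1, by omega⟩
      have h6 := sum_choose_succ_le m k
      simp only [Nat.add_sub_cancel] at h4
      constructor <;> omega
  refine ⟨fun n k _ => ⟨lower_even n k, even_upper n k⟩,
    fun n k h => ⟨odd_lower n k (by omega), odd_upper n k⟩,
    fun n d h => uniform n d (by omega), ?_⟩
  intro n d hn hd
  have hlast : n.choose (d / 2) ≤ ∑ i ∈ range (d / 2 + 1), n.choose i := by
    rw [sum_range_succ]
    exact Nat.le_add_left _ _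
  have h2 := two_mul_sum_le n (d / 2) (by omega)
  have h3 := uniform n d hn
  constructor <;> omega

end Pool.Agent.Results.MP_da15bd_co.OrderOfGrowth
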